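import Pool.Agent.PCS.Stmts

/-!
Squad PCS, row BIN: Strahler numbers are ranks.
-/

namespace Pool.Agent.PCS.H82

open Pool.Agent.PCS

section

variable {G : ℕ → Type} {X : ℕ → Type} {sec : ∀ n, G n → X n → G (n + 1)} {A : ∀ n, Set (G n)}

theorem hb_mono {k n : ℕ} {g : G n} (h : HasBinary sec A k n g) :
    ∀ j ≤ k, HasBinary sec A j n g := by
  induction h with
  | leaf n g hg =>
    intro j hj
    have : j = 0 := by omega
    subst this
    exact HasBinary.leaf n g hg
  | node k n g x y hxy h1 h2 ih1 ih2 =>
    intro j hj
    rcases Nat.lt_or_ge j (k + 1) with h | h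
    · exact HasBinary.down j n g x (ih1 j (by omega))
    · have : j = k + 1 := by omega
      subst this
      exact HasBinary.node k n g x y hxy h1 h2
  | down k n g x h ih =>
    intro j hj
    exact HasBinary.down j n g x (ih j hj)

theorem hb_isSec {k m n : ℕ} {h : G m} {g : G n} (hs : IsSec sec h n g)
    (hb : HasBinary sec A k m h) : HasBinary sec A k n g := by
  induction hs with
  | refl => exact hb
  | step n g x _ ih => exact HasBinary.down k n g x ih

open scoped Classical in
/-- the number of the `k < R` with `P k` -/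
noncomputable def cnt (P : ℕ → Prop) (R : ℕ) : ℕ := ((Finset.range R).filter fun k => P k).card

theorem cnt_le (P : ℕ → Prop) (R : ℕ) : cnt P R ≤ R := by
  classical
  unfold cnt
  calc _ ≤ (Finset.range R).card := Finset.card_filter_le _ _
    _ = R := Finset.card_range R

theorem cnt_mono {P Q : ℕ → Prop} (h : ∀ k, P k → Q k) (R : ℕ) : cnt P R ≤ cnt Q R := by
  classical
  unfold cnt
  refine Finset.card_le_card ?_
  intro k hk
  rw [Finset.mem_filter] at hk ⊢
  exact ⟨hk.1, h k hk.2⟩

theorem cnt_of_lt {P : ℕ → Prop} (hP : ∀ k j, j ≤ k → P k → P j) {R k : ℕ} (h : k < cnt P R) :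
    P k := by
  classical
  by_contra hk
  have h1 : cnt P R ≤ k := by
    unfold cnt
    calc _ ≤ (Finset.range k).card := by
          refine Finset.card_le_card ?_
          intro j hj
          rw [Finset.mem_filter] at hj
          rw [Finset.mem_range]
          by_contra hjk
          exact hk (hP j k (by omega) hj.2)
      _ = k := Finset.card_range k
  omega

theorem lt_cnt {P : ℕ → Prop} (hP : ∀ k j, j ≤ k → P k → P j) {R k : ℕ} (hk : k < R) (h : P k) :
    k < cnt P R := by
  classical
  have h1 : k + 1 ≤ cnt P R := by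
    unfold cnt
    calc k + 1 = (Finset.range (k + 1)).card := (Finset.card_range (k + 1)).symm
      _ ≤ _ := by
          refine Finset.card_le_card ?_
          intro j hj
          rw [Finset.mem_range] at hj
          rw [Finset.mem_filter, Finset.mem_range]
          exact ⟨by omega, hP k j (by omega) h⟩
  omega

theorem hb_anti (n : ℕ) (g : G n) : ∀ k j, j ≤ k → HasBinary sec A k n g →
    HasBinary sec A j n g := fun _ j hj h => hb_mono h j hj

end

section

variable {G : ℕ → Type} {X : ℕ → Type} [∀ n, Group (G n)] [∀ n, MulAction (G n) (X n)]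
  {sec : ∀ n, G n → X n → G (n + 1)} {A : ∀ n, Set (G n)}

theorem rkV_eq (R : ℕ) (g : G 0) (v : Vt X) :
    rkV sec A R g v = cnt (fun k => HasBinary sec A k v.1 (st sec v.1 g v.2).2) R := rfl

theorem hb_st {k : ℕ} {g : G 0} : ∀ (n : ℕ) (w : W X n), HasBinary sec A k n (st sec n g w).2 →
    HasBinary sec A k 0 g := by
  intro n
  induction n with
  | zero => intro w h; exact h
  | succ n ih =>
    intro w h
    exact ih w.1 (HasBinary.down k n _ w.2 h)

theorem not_hb_one (hsec : ∀ n (g h : G n) (x : X n), sec n (g * h) x = sec n g (h • x) * sec n h x)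
    (hA : ∀ n, (1 : G n) ∈ A n) {k n : ℕ} {g : G n} (h : HasBinary sec A k n g) : g ≠ 1 := by
  induction h with
  | leaf n g hg =>
    intro h
    exact hg (h ▸ hA n)
  | node k n g x y hxy h1 h2 ih1 ih2 =>
    intro h
    exact ih1 (by rw [h]; exact sec_one sec hsec n x)
  | down k n g x h ih =>
    intro h
    exact ih (by rw [h]; exact sec_one sec hsec n x)

end

/-- **BIN**. -/
theorem bin : BinStmt := by
  intro G _ X _ sec A R hsec hA
  refine ⟨fun g v => cnt_le _ _, ?_, ?_, ?_, ?_⟩
  · intro v
    rw [rkV_eq]
    by_contra h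
    have h0 : HasBinary sec A 0 v.1 (st sec v.1 (1 : G 0) v.2).2 :=
      cnt_of_lt (hb_anti v.1 _) (Nat.pos_of_ne_zero h)
    refine not_hb_one hsec hA h0 ?_
    rw [st_one sec hsec]
  · rintro g ⟨n, w⟩ hn
    cases n with
    | zero => exact absurd hn (lt_irrefl 0)
    | succ n =>
      rw [rkV_eq, rkV_eq]
      refine cnt_mono ?_ R
      intro k hk
      exact HasBinary.down k n _ w.2 hk
  · rintro g hg ⟨n, v⟩ ⟨m, w⟩ hn hm hp h1 hv hw
    cases n with
    | zero => exact absurd hn (lt_irrefl 0)
    | succ n =>
      cases m with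
      | zero => exact absurd hm (lt_irrefl 0)
      | succ m =>
        have hp' : (⟨n, v.1⟩ : Vt X) = ⟨m, w.1⟩ := hp
        have hnm : n = m := congrArg Sigma.fst hp'
        subst hnm
        have hvw : v.1 = w.1 := by
          have := hp'
          exact eq_of_heq (Sigma.mk.inj this).2
        by_contra hne
        have hxy : v.2 ≠ w.2 := by
          intro h
          apply hne
          have : v = w := Prod.ext hvw h
          rw [this]
        obtain ⟨a, x⟩ := v
        obtain ⟨b, y⟩ := w
        have hvw' : a = b := hvw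
        subst hvw'
        have hP : parV (⟨n + 1, (a, x)⟩ : Vt X) = ⟨n, a⟩ := rfl
        have hP' : parV (⟨n + 1, (a, y)⟩ : Vt X) = ⟨n, a⟩ := rfl
        rw [hP] at h1 hv
        rw [hP'] at hw
        obtain ⟨ρ, hρ⟩ : ∃ ρ, rkV sec A R g (⟨n, a⟩ : Vt X) = ρ + 1 :=
          ⟨rkV sec A R g (⟨n, a⟩ : Vt X) - 1, by omega⟩
        have e1 : HasBinary sec A ρ (n + 1) (sec n (st sec n g a).2 x) :=
          cnt_of_lt (P := fun k => HasBinary sec A k (n + 1) (sec n (st sec n g a).2 x))
            (hb_anti (n + 1) _) (R := R) (k := ρ) (by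
              have : rkV sec A R g (⟨n + 1, (a, x)⟩ : Vt X) = ρ + 1 := hv.trans hρ
              rw [rkV_eq] at this
              change cnt (fun k => HasBinary sec A k (n + 1) (sec n (st sec n g a).2 x)) R
                = ρ + 1 at this
              omega)
        have e2 : HasBinary sec A ρ (n + 1) (sec n (st sec n g a).2 y) :=
          cnt_of_lt (P := fun k => HasBinary sec A k (n + 1) (sec n (st sec n g a).2 y))
            (hb_anti (n + 1) _) (R := R) (k := ρ) (by
              have : rkV sec A R g (⟨n + 1, (a, y)⟩ : Vt X) = ρ + 1 := hw.trans hρ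
              rw [rkV_eq] at this
              change cnt (fun k => HasBinary sec A k (n + 1) (sec n (st sec n g a).2 y)) R
                = ρ + 1 at this
              omega)
        have e3 : HasBinary sec A (ρ + 1) n (st sec n g a).2 :=
          HasBinary.node ρ n _ x y hxy e1 e2
        rcases Nat.lt_or_ge (ρ + 1) R with hR | hR
        · have := lt_cnt (P := fun k => HasBinary sec A k n (st sec n g a).2)
            (hb_anti n _) hR e3
          rw [rkV_eq] at hρ
          change cnt (fun k => HasBinary sec A k n (st sec n g a).2) R = ρ + 1 at hρ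
          omega
        · exact hg (hb_st n a (hb_mono e3 R hR))
  · rintro g hg ⟨n, v⟩ h0
    have h1 : ¬ HasBinary sec A 0 n (st sec n g v).2 := by
      intro h
      rcases Nat.eq_zero_or_pos R with hR | hR
      · subst hR
        exact hg (hb_st n v h)
      · have := lt_cnt (P := fun k => HasBinary sec A k n (st sec n g v).2)
          (hb_anti n _) hR h
        rw [rkV_eq] at h0
        change cnt (fun k => HasBinary sec A k n (st sec n g v).2) R = 0 at h0
        omega
    refine ⟨?_, ?_⟩
    · by_contra h
      exact h1 (HasBinary.leaf n _ h)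
    · intro m h hs
      by_contra hh
      exact h1 (hb_isSec hs (HasBinary.leaf m h hh))

end Pool.Agent.PCS.H82
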